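import Pool.Agent.Helper87.HD.Stmts

/-!
Module REAL of the analytic core for all `d` (MP_2f9829_co): the real maximisers are products of orthogonal matrices.
-/

set_option autoImplicit false

open Finset

namespace Pool.Agent.Helper12.HDReal

open HD

/-- a matrix with values in the reals up to a factor of modulus one -/
theorem real_of_phase {d : ℕ} (U : Matrix (Fin d) (Fin d) ℂ) (hU : U ∈ Matrix.unitaryGroup (Fin d) ℂ) (ph : ℂ)
    (hph : ‖ph‖ = 1) (O : Matrix (Fin d) (Fin d) ℝ) (h : ∀ i j, U i j = ph * (O i j : ℂ)) :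
    O ∈ Matrix.orthogonalGroup (Fin d) ℝ := by
  rw [Matrix.mem_unitaryGroup_iff] at hU
  rw [Matrix.mem_orthogonalGroup_iff]
  ext i j
  have h1 := congrFun (congrFun hU i) j
  rw [Matrix.mul_apply] at h1
  rw [Matrix.mul_apply]
  have h2 : ∀ k, U i k * star U k j = ((O i k * star O k j : ℝ) : ℂ) := by
    intro k
    rw [Matrix.star_apply, Matrix.star_apply, h, h]
    have h3 : ph * star ph = 1 := by
      have h4 : ph * star ph = ((‖ph‖ ^ 2 : ℝ) : ℂ) := by
        rw [← Complex.normSq_eq_norm_sq]; exact Complex.mul_conj ph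
      rw [h4, hph]; simp
    rw [star_mul']
    have h5 : star ((O j k : ℝ) : ℂ) = ((O j k : ℝ) : ℂ) := Complex.conj_ofReal _
    have h6 : star (O j k : ℝ) = O j k := rfl
    rw [h5, h6]
    push_cast
    linear_combination ((O i k : ℂ) * (O j k : ℂ)) * h3
  rw [Finset.sum_congr rfl (fun k _ => h2 k), ← Complex.ofReal_sum] at h1
  have h7 : ((1 : Matrix (Fin d) (Fin d) ℂ) i j) = (((1 : Matrix (Fin d) (Fin d) ℝ) i j : ℝ) : ℂ) := by
    rw [Matrix.one_apply, Matrix.one_apply]
    split_ifs <;> simp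
  rw [h7] at h1
  exact_mod_cast h1

theorem st_REAL (uniq : ST_UNIQ) : ST_REAL := by
  intro d K x hd hK hx hP
  have hx' : ∑ a, ‖((x a : ℝ) : ℂ)‖ ^ 2 = 1 := by
    rw [← hx]
    refine Finset.sum_congr rfl fun a _ => ?_
    rw [Complex.norm_real, Real.norm_eq_abs, sq_abs]
  obtain ⟨e, U, hU, hpr⟩ := uniq d K (fun a => ((x a : ℝ) : ℂ)) hd hK hx' hP
  have hd0 : 0 < d := by omega
  have hsd : (0 : ℝ) < Real.sqrt d := Real.sqrt_pos.mpr (by exact_mod_cast hd0)
  have hsdK : ((Real.sqrt d : ℝ) : ℂ) ^ K ≠ 0 := by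
    refine pow_ne_zero _ ?_
    exact_mod_cast hsd.ne'
  -- products are real
  have hre : ∀ a : Ix d (2 * K), ∏ k, U k (a (e (k, 0))) (a (e (k, 1))) = ((x a * Real.sqrt d ^ K : ℝ) : ℂ) := by
    intro a
    have h := hpr a
    simp only at h
    rw [eq_div_iff hsdK] at h
    rw [← h]
    push_cast
    ring
  -- a nonzero entry of every factor
  have hne : ∀ k, ∃ ij : Fin d × Fin d, U k ij.1 ij.2 ≠ 0 := by
    intro k
    by_contra hc
    push Not at hc
    have h0 : U k = 0 := by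
      ext i j
      exact hc (i, j)
    have h1 := hU k
    rw [Matrix.mem_unitaryGroup_iff, h0, zero_mul] at h1
    have h2 := congrFun (congrFun h1 ⟨0, hd0⟩) ⟨0, hd0⟩
    rw [Matrix.one_apply_eq] at h2
    exact zero_ne_one h2
  choose ij hij using hne
  -- the assignment with given pairs
  have hass : ∀ p : Fin K → Fin d × Fin d, ∃ a : Ix d (2 * K), ∀ k, a (e (k, 0)) = (p k).1 ∧ a (e (k, 1)) = (p k).2 := by
    intro p
    refine ⟨fun j => if (e.symm j).2 = 0 then (p (e.symm j).1).1 else (p (e.symm j).1).2, fun k => ?_⟩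
    simp
  have hpr' : ∀ p : Fin K → Fin d × Fin d, ∃ r : ℝ, ∏ k, U k (p k).1 (p k).2 = (r : ℂ) := by
    intro p
    obtain ⟨a, ha⟩ := hass p
    refine ⟨x a * Real.sqrt d ^ K, ?_⟩
    rw [← hre a]
    refine Finset.prod_congr rfl fun k _ => ?_
    rw [(ha k).1, (ha k).2]
  -- the phases
  set u : Fin K → ℂ := fun k => U k (ij k).1 (ij k).2 with hu
  have hu0 : ∀ k, u k ≠ 0 := hij
  set ph : Fin K → ℂ := fun k => u k / (‖u k‖ : ℂ) with hphdef
  have hph1 : ∀ k, ‖ph k‖ = 1 := by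
    intro k
    simp only [hphdef]
    rw [norm_div, Complex.norm_real, norm_norm, div_self (norm_ne_zero_iff.mpr (hu0 k))]
  have hph0 : ∀ k, ph k ≠ 0 := fun k => by
    intro h
    have := hph1 k
    rw [h, norm_zero] at this
    exact zero_ne_one this
  have hex : ∀ k i j, ∃ r : ℝ, U k i j = ph k * (r : ℂ) := by
    intro k i j
    obtain ⟨r1, hr1⟩ := hpr' (Function.update ij k (i, j))
    obtain ⟨r0, hr0⟩ := hpr' ij
    have hm1 : ∏ l, U l (Function.update ij k (i, j) l).1 (Function.update ij k (i, j) l).2 =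
        U k i j * ∏ l ∈ univ.erase k, u l := by
      rw [← Finset.mul_prod_erase univ _ (Finset.mem_univ k)]
      congr 1
      · rw [Function.update_self]
      · refine Finset.prod_congr rfl fun l hl => ?_
        rw [Function.update_of_ne (Finset.ne_of_mem_erase hl)]
    have hm0 : ∏ l, U l (ij l).1 (ij l).2 = u k * ∏ l ∈ univ.erase k, u l := by
      rw [← Finset.mul_prod_erase univ _ (Finset.mem_univ k)]
    have hc : ∏ l ∈ univ.erase k, u l ≠ 0 := Finset.prod_ne_zero_iff.mpr fun l _ => hu0 l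
    rw [hm1] at hr1
    rw [hm0] at hr0
    have hr00 : (r0 : ℂ) ≠ 0 := by
      rw [← hr0]; exact mul_ne_zero (hu0 k) hc
    refine ⟨r1 / r0 * ‖u k‖, ?_⟩
    have hnu : ((‖u k‖ : ℝ) : ℂ) ≠ 0 := by exact_mod_cast (norm_ne_zero_iff.mpr (hu0 k))
    have h3 : ph k * (((r1 / r0 * ‖u k‖ : ℝ)) : ℂ) = u k * (r1 / r0) := by
      simp only [hphdef]
      push_cast
      field_simp
    rw [h3]
    have h4 : U k i j * r0 = u k * r1 := by
      rw [← hr0, ← hr1]; ring
    field_simp
    linear_combination h4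
  choose O hO using hex
  -- the product of the phases is 1 or -1
  obtain ⟨r0, hr0⟩ := hpr' ij
  have hprod : ∏ k, u k = (∏ k, ph k) * ((∏ k, ‖u k‖ : ℝ) : ℂ) := by
    push_cast
    rw [← Finset.prod_mul_distrib]
    refine Finset.prod_congr rfl fun k _ => ?_
    have hnu : ((‖u k‖ : ℝ) : ℂ) ≠ 0 := by exact_mod_cast (norm_ne_zero_iff.mpr (hu0 k))
    simp only [hphdef]
    field_simp
  have hpos : (0 : ℝ) < ∏ k, ‖u k‖ := Finset.prod_pos fun k _ => norm_pos_iff.mpr (hu0 k)
  obtain ⟨s, hs, hs2⟩ : ∃ s : ℝ, ∏ k, ph k = (s : ℂ) ∧ s * s = 1 := by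
    refine ⟨r0 / ∏ k, ‖u k‖, ?_, ?_⟩
    · have h1 : (∏ k, ph k) * ((∏ k, ‖u k‖ : ℝ) : ℂ) = (r0 : ℂ) := by
        rw [← hprod, ← hr0]
      have h2 : (((∏ k, ‖u k‖ : ℝ)) : ℂ) ≠ 0 := by exact_mod_cast hpos.ne'
      rw [eq_comm, Complex.ofReal_div, div_eq_iff h2]
      exact h1.symm
    · have h1 : ‖∏ k, u k‖ = ∏ k, ‖u k‖ := by rw [norm_prod]
      have h2 : ∏ k, u k = (r0 : ℂ) := hr0
      rw [h2, Complex.norm_real, Real.norm_eq_abs] at h1
      rw [← h1]
      have h3 : |r0| ≠ 0 := by rw [h1]; exact hpos.ne'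
      rw [div_mul_div_comm, abs_mul_abs_self, div_self]
      exact mul_self_ne_zero.mpr (abs_ne_zero.mp h3)
  -- the sign goes to one factor
  have k0 : Fin K := ⟨0, hK⟩
  refine ⟨e, fun k => Matrix.of fun i j => (if k = k0 then s else 1) * O k i j, ?_, ?_⟩
  · intro k
    have hs1 : ‖(((if k = k0 then s else 1 : ℝ)) : ℂ)‖ = 1 := by
      rw [Complex.norm_real, Real.norm_eq_abs]
      split_ifs
      · have : |s| * |s| = 1 := by rw [← abs_mul, hs2, abs_one]
        nlinarith [abs_nonneg s]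
      · exact abs_one
    have hss : (((if k = k0 then s else 1 : ℝ)) : ℂ) * (((if k = k0 then s else 1 : ℝ)) : ℂ) = 1 := by
      rw [← Complex.ofReal_mul]
      split_ifs
      · rw [hs2]; simp
      · simp
    refine real_of_phase (U k) (hU k) (ph k * (((if k = k0 then s else 1 : ℝ)) : ℂ)) ?_ _ ?_
    · rw [norm_mul, hph1, hs1, one_mul]
    · intro i j
      show U k i j = ph k * (((if k = k0 then s else 1 : ℝ)) : ℂ) * (((if k = k0 then s else 1) * O k i j : ℝ) : ℂ)
      rw [hO k i j, Complex.ofReal_mul]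
      linear_combination (-(ph k) * (O k i j : ℂ)) * hss
  · intro a
    have h1 := hre a
    have h2 : ∏ k, U k (a (e (k, 0))) (a (e (k, 1))) =
        ((∏ k, (Matrix.of fun i j => (if k = k0 then s else 1) * O k i j) (a (e (k, 0))) (a (e (k, 1))) : ℝ) : ℂ) := by
      have h3 : ∀ k, U k (a (e (k, 0))) (a (e (k, 1))) = ph k * (O k (a (e (k, 0))) (a (e (k, 1))) : ℂ) :=
        fun k => hO k _ _
      rw [Finset.prod_congr rfl (fun k _ => h3 k), Finset.prod_mul_distrib, hs]
      simp only [Matrix.of_apply]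
      rw [Finset.prod_mul_distrib, Finset.prod_ite_eq' univ k0 (fun _ => s)]
      simp
    rw [h2] at h1
    have h4 := Complex.ofReal_injective h1
    rw [eq_div_iff (pow_ne_zero _ hsd.ne')]
    exact h4.symm

end Pool.Agent.Helper12.HDReal
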